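import Pool.Agent.Y89.TW.Stm2

/-!
# Project TW: tensors of degree four fixed by a rotation (helper702)
-/

open Matrix Finset

set_option autoImplicit false
set_option linter.unusedSectionVars false

namespace Pool.Agent.Y702.TW

noncomputable section

open Pool.Agent.Y89.KS (der sl)
open Pool.Agent.Y89.TS (act)
open Pool.Agent.Y89.TU (slm)

section
variable {N : Type} [Fintype N] [DecidableEq N] {k : ℕ}

lemma act_eq (g : Matrix N N ℂ) (f : (Fin k → N) → ℂ) : act gᵀ f = slm (fun _ => g) f := rfl

lemma slm_slm (d e : Fin k → Matrix N N ℂ) (f : (Fin k → N) → ℂ) :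
    slm d (slm e f) = slm (fun j => e j * d j) f := by
  funext I
  unfold slm
  simp only [Finset.mul_sum]
  rw [Finset.sum_comm]
  refine Finset.sum_congr rfl fun K _ => ?_
  simp only [← mul_assoc]
  rw [← Finset.sum_mul]
  congr 1
  simp only [Matrix.mul_apply]
  rw [Finset.prod_univ_sum, Fintype.piFinset_univ]
  refine Finset.sum_congr rfl fun J _ => ?_
  rw [Finset.prod_mul_distrib, mul_comm]

lemma slm_smul (c : Fin k → ℂ) (d : Fin k → Matrix N N ℂ) (f : (Fin k → N) → ℂ) :
    slm (fun j => c j • d j) f = (∏ j, c j) • slm d f := by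
  funext I
  unfold slm
  simp only [Pi.smul_apply, smul_eq_mul, Finset.mul_sum]
  refine Finset.sum_congr rfl fun J _ => ?_
  rw [← mul_assoc, ← Finset.prod_mul_distrib]
  rfl

lemma slm_one (f : (Fin k → N) → ℂ) : slm (fun _ => (1 : Matrix N N ℂ)) f = f := by
  funext I
  unfold slm
  rw [Finset.sum_eq_single I]
  · simp
  · intro J _ hJ
    obtain ⟨t, ht⟩ := Function.ne_iff.1 hJ
    have : ∏ t, (1 : Matrix N N ℂ) (J t) (I t) = 0 :=
      Finset.prod_eq_zero (Finset.mem_univ t) (Matrix.one_apply_ne ht)
    rw [this, zero_mul]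
  · intro h
    exact absurd (Finset.mem_univ I) h

lemma slm_sum (P : Bool → Matrix N N ℂ) (hP : P true + P false = 1) (f : (Fin k → N) → ℂ) :
    f = ∑ s : Fin k → Bool, slm (fun j => P (s j)) f := by
  conv_lhs => rw [← slm_one f]
  funext I
  rw [Finset.sum_apply]
  unfold slm
  rw [Finset.sum_comm]
  refine Finset.sum_congr rfl fun J _ => ?_
  rw [← Finset.sum_mul]
  congr 1
  have h1 : ∀ j : Fin k, (1 : Matrix N N ℂ) (J j) (I j) = ∑ b : Bool, P b (J j) (I j) := by
    intro j
    rw [← hP, Fintype.sum_bool, Matrix.add_apply]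
  simp only [h1]
  rw [Finset.prod_univ_sum, Fintype.piFinset_univ]

lemma sl_slm (Om : Matrix N N ℂ) (d : Fin k → Matrix N N ℂ) (j : Fin k) (c : ℂ)
    (h : d j * Om = c • d j) (f : (Fin k → N) → ℂ) : sl j Om (slm d f) = c • slm d f := by
  funext I
  unfold sl slm
  simp only [Finset.mul_sum, Pi.smul_apply, smul_eq_mul]
  rw [Finset.sum_comm]
  refine Finset.sum_congr rfl fun J _ => ?_
  have h1 : ∀ p, ∏ s, d s (J s) (Function.update I j p s) =
      d j (J j) p * ∏ s ∈ Finset.univ.erase j, d s (J s) (I s) := by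
    intro p
    rw [← Finset.mul_prod_erase Finset.univ _ (Finset.mem_univ j), Function.update_self]
    congr 1
    refine Finset.prod_congr rfl fun t ht => ?_
    rw [Function.update_of_ne (Finset.ne_of_mem_erase ht)]
  have h2 : ∏ s, d s (J s) (I s) = d j (J j) (I j) * ∏ s ∈ Finset.univ.erase j, d s (J s) (I s) := by
    rw [← Finset.mul_prod_erase Finset.univ _ (Finset.mem_univ j)]
  have h3 := congrFun (congrFun h (J j)) (I j)
  rw [Matrix.mul_apply, Matrix.smul_apply, smul_eq_mul] at h3
  rw [h2]
  have h4 : ∀ p, Om p (I j) * ((∏ s, d s (J s) (Function.update I j p s)) * f J) =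
      (d j (J j) p * Om p (I j)) * ((∏ s ∈ Finset.univ.erase j, d s (J s) (I s)) * f J) := by
    intro p
    rw [h1]
    ring
  rw [Finset.sum_congr rfl fun p _ => h4 p, ← Finset.sum_mul, h3]
  ring

lemma der_sum {S : Type} (u : Finset S) (Om : Matrix N N ℂ) (g : S → (Fin k → N) → ℂ) :
    der Om (∑ s ∈ u, g s) = ∑ s ∈ u, der Om (g s) := by
  funext I
  rw [Finset.sum_apply]
  unfold der sl
  simp only [Finset.sum_apply, Finset.mul_sum]
  symm
  rw [Finset.sum_comm]
  refine Finset.sum_congr rfl fun j _ => ?_
  rw [Finset.sum_comm]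

lemma der_slm (Om : Matrix N N ℂ) (d : Fin k → Matrix N N ℂ) (c : Fin k → ℂ)
    (h : ∀ j, d j * Om = c j • d j) (f : (Fin k → N) → ℂ) :
    der Om (slm d f) = (∑ j, c j) • slm d f := by
  funext I
  have h1 : der Om (slm d f) I = ∑ j, sl j Om (slm d f) I := rfl
  rw [h1, Pi.smul_apply, smul_eq_mul, Finset.sum_mul]
  refine Finset.sum_congr rfl fun j _ => ?_
  rw [sl_slm Om d j (c j) (h j) f]
  rfl

end

/-- (WT4) -/
theorem t_wt4 : Pool.Agent.Y89.TW.S_wt4 := by
  intro N _ _ Om hOm α β hab f hf hder
  by_contra hu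
  set u : ℂ := α + Complex.I * β with hu_def
  set u' : ℂ := α - Complex.I * β with hu'_def
  have hI : Complex.I * Complex.I = -1 := Complex.I_mul_I
  have huu : u * u' = 1 := by
    rw [hu_def, hu'_def]
    linear_combination hab - (β * β) * hI
  set P : Bool → Matrix N N ℂ := fun b => cond b ((1 / 2 : ℂ) • (1 - Complex.I • Om))
    ((1 / 2 : ℂ) • (1 + Complex.I • Om)) with hP
  set e : Bool → ℂ := fun b => cond b Complex.I (-Complex.I) with he
  set c : Bool → ℂ := fun b => cond b u u' with hc
  have hP1 : P true + P false = 1 := by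
    simp only [hP, cond_true, cond_false]
    rw [← smul_add, sub_add_add_cancel, ← two_smul ℂ (1 : Matrix N N ℂ), smul_smul]
    norm_num
  have hPO : ∀ b, P b * Om = e b • P b := by
    intro b
    cases b
    · simp only [hP, he, cond_false]
      rw [Matrix.smul_mul, Matrix.add_mul, Matrix.one_mul, Matrix.smul_mul, hOm]
      ext i j
      simp only [Matrix.smul_apply, Matrix.add_apply, Matrix.neg_apply, smul_eq_mul]
      linear_combination (1 / 2 * Om i j) * hI
    · simp only [hP, he, cond_true]
      rw [Matrix.smul_mul, Matrix.sub_mul, Matrix.one_mul, Matrix.smul_mul, hOm]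
      ext i j
      simp only [Matrix.smul_apply, Matrix.sub_apply, Matrix.neg_apply, smul_eq_mul]
      linear_combination (1 / 2 * Om i j) * hI
  have hzP : ∀ b, (α • (1 : Matrix N N ℂ) + β • Om) * P b = c b • P b := by
    intro b
    cases b
    · simp only [hP, hc, cond_false]
      rw [Matrix.mul_smul, Matrix.mul_add, Matrix.mul_one, Matrix.mul_smul, Matrix.add_mul,
        Matrix.smul_mul, Matrix.smul_mul, Matrix.one_mul, hOm]
      ext i j
      simp only [Matrix.smul_apply, Matrix.add_apply, Matrix.neg_apply, smul_eq_mul, hu'_def]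
      linear_combination (β / 2 * Om i j) * hI
    · simp only [hP, hc, cond_true]
      rw [Matrix.mul_smul, Matrix.mul_sub, Matrix.mul_one, Matrix.mul_smul, Matrix.add_mul,
        Matrix.smul_mul, Matrix.smul_mul, Matrix.one_mul, hOm]
      ext i j
      simp only [Matrix.smul_apply, Matrix.add_apply, Matrix.sub_apply, Matrix.neg_apply,
        smul_eq_mul, hu_def]
      linear_combination (β / 2 * Om i j) * hI
  have hfs : ∀ s : Fin 4 → Bool, slm (fun j => P (s j)) f =
      (∏ j, c (s j)) • slm (fun j => P (s j)) f := by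
    intro s
    conv_lhs => rw [← hf, act_eq, slm_slm]
    simp only [hzP]
    rw [slm_smul]
  have hds : ∀ s : Fin 4 → Bool, der Om (slm (fun j => P (s j)) f) = 0 := by
    intro s
    rw [der_slm Om _ (fun j => e (s j)) (fun j => hPO (s j)) f]
    by_cases hs : ∑ j, e (s j) = 0
    · rw [hs, zero_smul]
    · have hne : ∏ j, c (s j) ≠ 1 := by
        intro h1
        rw [Fin.sum_univ_four] at hs
        rw [Fin.prod_univ_four] at h1
        have k2 : u ^ 2 = 1 → False := fun h => hu (by
          rw [show u ^ 4 = (u ^ 2) ^ 2 by ring, h, one_pow])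
        have k2' : u' ^ 2 = 1 → False := fun h => k2 (by
          have : (u * u') ^ 2 = 1 := by rw [huu, one_pow]
          rw [mul_pow, h, mul_one] at this
          exact this)
        have k4' : u' ^ 4 = 1 → False := fun h => hu (by
          have : (u * u') ^ 4 = 1 := by rw [huu, one_pow]
          rw [mul_pow, h, mul_one] at this
          exact this)
        rcases h0 : s 0 <;> rcases h1' : s 1 <;> rcases h2 : s 2 <;> rcases h3 : s 3 <;>
          simp only [h0, h1', h2, h3, he, hc, cond_true, cond_false] at hs h1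
        all_goals first
          | exact hs (by ring1)
          | exact hu (by linear_combination h1)
          | exact k4' (by linear_combination h1)
          | exact k2 (by linear_combination h1 - u ^ 2 * huu)
          | exact k2' (by linear_combination h1 - u' ^ 2 * huu)
      have h3 : (1 - ∏ j, c (s j)) • slm (fun j => P (s j)) f = 0 := by
        rw [sub_smul, one_smul, ← hfs s, sub_self]
      rcases smul_eq_zero.1 h3 with h4 | h4
      · exact absurd (sub_eq_zero.1 h4).symm hne
      · rw [h4, smul_zero]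
  apply hder
  rw [slm_sum P hP1 f, der_sum]
  exact Finset.sum_eq_zero fun s _ => hds s

end

end Pool.Agent.Y702.TW
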